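import Pool.Agent.H2.Box.Defs

/-!
# The lower bound `2^d` (Alon, Bohman, Holzman, Kleitman)
-/

namespace Pool.Agent.H2.Box

open Filter Topology

section Parity

variable {α : Type*} [Fintype α] [DecidableEq α]

/-- The subsets of odd size. -/
def oddSets (α : Type*) [Fintype α] [DecidableEq α] : Finset (Finset α) :=
  Finset.univ.filter fun R => Odd R.card

/-- The subsets of odd size meeting `S` in an odd number of points. -/
def oddMeet (S : Finset α) : Finset (Finset α) := (oddSets α).filter fun R => Odd (R ∩ S).card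

theorem odd_card_symmDiff (R T : Finset α) :
    Odd (symmDiff R T).card ↔ (Odd R.card ↔ ¬ Odd T.card) := by
  have h1 : (symmDiff R T).card + 2 * (R ∩ T).card = R.card + T.card := by
    have e1 : (symmDiff R T).card = (R \ T).card + (T \ R).card := by
      rw [symmDiff_def, Finset.sup_eq_union, Finset.card_union_of_disjoint]
      exact disjoint_sdiff_sdiff
    have e2 := Finset.card_sdiff_add_card_inter R T
    have e3 := Finset.card_sdiff_add_card_inter T R
    rw [Finset.inter_comm T R] at e3
    omega
  have h2 : Odd (symmDiff R T).card ↔ Odd (R.card + T.card) := by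
    have h3 : Odd (R.card + T.card) ↔ Odd ((symmDiff R T).card + 2 * (R ∩ T).card) := by
      rw [h1]
    rw [h3, Nat.odd_add]
    simp
  rw [h2, Nat.odd_add, Nat.not_odd_iff_even]

theorem two_mul_card_oddMeet {S : Finset α} (hne : S.Nonempty) (hneu : S ≠ Finset.univ) :
    2 * (oddMeet S).card = (oddSets α).card := by
  obtain ⟨a, ha⟩ := hne
  obtain ⟨b, hb⟩ : ∃ b, b ∉ S := by
    by_contra h
    push Not at h
    exact hneu (Finset.eq_univ_iff_forall.mpr h)
  have hab : a ≠ b := fun h => hb (h ▸ ha)
  set T : Finset α := {a, b} with hT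
  have hTc : T.card = 2 := Finset.card_pair hab
  have hTS : (T ∩ S).card = 1 := by
    have : T ∩ S = {a} := by
      ext x
      simp only [hT, Finset.mem_inter, Finset.mem_insert, Finset.mem_singleton]
      constructor
      · rintro ⟨rfl | rfl, h⟩
        · rfl
        · exact absurd h hb
      · rintro rfl
        exact ⟨Or.inl rfl, ha⟩
    rw [this]; rfl
  have hmap : ∀ R : Finset α, (Odd (symmDiff R T).card ↔ Odd R.card) ∧
      (Odd (symmDiff R T ∩ S).card ↔ ¬ Odd (R ∩ S).card) := by
    intro R
    constructor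
    · rw [odd_card_symmDiff, hTc]
      simp
    · have : symmDiff R T ∩ S = symmDiff (R ∩ S) (T ∩ S) := by
        ext x
        simp only [Finset.mem_inter, Finset.mem_symmDiff]
        tauto
      rw [this, odd_card_symmDiff, hTS]
      simp
  have hcard : (oddMeet S).card = ((oddSets α).filter fun R => ¬ Odd (R ∩ S).card).card := by
    refine Finset.card_bij' (fun R _ => symmDiff R T) (fun R _ => symmDiff R T) ?_ ?_ ?_ ?_
    · intro R hR
      simp only [oddMeet, oddSets, Finset.mem_filter, Finset.mem_univ, true_and] at hR ⊢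
      exact ⟨(hmap R).1.mpr hR.1, fun h => (hmap R).2.mp h hR.2⟩
    · intro R hR
      simp only [oddMeet, oddSets, Finset.mem_filter, Finset.mem_univ, true_and] at hR ⊢
      exact ⟨(hmap R).1.mpr hR.1, (hmap R).2.mpr hR.2⟩
    · intro R _
      exact symmDiff_symmDiff_cancel_right T R
    · intro R _
      exact symmDiff_symmDiff_cancel_right T R
  have := Finset.card_filter_add_card_filter_not (s := oddSets α) fun R => Odd (R ∩ S).card
  unfold oddMeet at *
  omega

theorem oddSets_nonempty [Nonempty α] : (oddSets α).Nonempty := by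
  obtain ⟨a⟩ := ‹Nonempty α›
  exact ⟨{a}, by simp [oddSets]⟩

end Parity

/-- A partition into proper boxes has at least `2^d` parts. -/
theorem two_pow_le_ncard {d k : ℕ} (hk : 2 ≤ k) {α : Type*} [Fintype α] [Nonempty α]
    {P : Set (Set (Fin d → α))} (hP : IsPiercing k P) : 2 ^ d ≤ P.ncard := by
  classical
  -- the sides of the boxes
  have hbox : ∀ B : Set (Fin d → α), ∃ S : Fin d → Finset α, B ∈ P →
      (∀ i, (S i).Nonempty ∧ S i ≠ Finset.univ) ∧ ∀ x, x ∈ B ↔ ∀ i, x i ∈ S i := by
    intro B
    by_cases hB : B ∈ P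
    · obtain ⟨S, hS, hBS⟩ := hP.box B hB
      have hmem : ∀ x, x ∈ B ↔ ∀ i, x i ∈ S i := fun x => by rw [hBS]; simp [Set.mem_pi]
      refine ⟨fun i => (S i).toFinite.toFinset, fun _ => ⟨fun i => ⟨?_, ?_⟩, fun x => ?_⟩⟩
      · obtain ⟨a, ha⟩ := hS i
        exact ⟨a, (S i).toFinite.mem_toFinset.mpr ha⟩
      · intro hu
        choose x hx using hS
        have h2 : 1 < {B ∈ P | (B ∩ line i x).Nonempty}.ncard :=
          lt_of_lt_of_le one_lt_two (hk.trans (hP.pierce i x))
        have hxB : x ∈ B := (hmem x).mpr hx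
        obtain ⟨B', hB', hne⟩ : ∃ B' ∈ {B ∈ P | (B ∩ line i x).Nonempty}, B' ≠ B :=
          Set.exists_ne_of_one_lt_ncard h2 B
        obtain ⟨hB'P, y, hyB', hyl⟩ := hB'
        have hyB : y ∈ B := by
          rw [hmem]
          intro j
          by_cases hj : j = i
          · subst hj
            have hu' : (S j).toFinite.toFinset = Finset.univ := hu
            have : y j ∈ (S j).toFinite.toFinset := by rw [hu']; exact Finset.mem_univ _
            exact (S j).toFinite.mem_toFinset.mp this
          · rw [hyl j hj]; exact hx j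
        obtain ⟨C, -, huniq⟩ := hP.partition.2 y
        exact hne ((huniq B' ⟨hB'P, hyB'⟩).trans (huniq B ⟨hB, hyB⟩).symm)
      · rw [hmem]
        exact forall_congr' fun i => (S i).toFinite.mem_toFinset.symm
    · exact ⟨fun _ => ∅, fun h => absurd h hB⟩
  choose S hS using hbox
  set PF : Finset (Set (Fin d → α)) := P.toFinite.toFinset with hPF
  have hPFc : PF.card = P.ncard := (Set.ncard_eq_toFinset_card P P.toFinite).symm
  have hmemPF : ∀ B, B ∈ PF ↔ B ∈ P := fun B => P.toFinite.mem_toFinset
  set N := (oddSets α).card with hN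
  have hNpos : 0 < N := Finset.card_pos.mpr oddSets_nonempty
  -- covering
  have hcov : Fintype.piFinset (fun _ : Fin d => oddSets α) ⊆
      PF.biUnion fun B => Fintype.piFinset fun i => oddMeet (S B i) := by
    intro R hR
    rw [Fintype.mem_piFinset] at hR
    have hRodd : ∀ i, Odd (R i).card := fun i => by
      have := hR i
      simpa [oddSets] using this
    rw [Finset.mem_biUnion]
    by_contra hcon
    push Not at hcon
    have heven : ∀ B ∈ PF, Even (∏ i, (R i ∩ S B i).card) := by
      intro B hB
      have := hcon B hB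
      rw [Fintype.mem_piFinset] at this
      push Not at this
      obtain ⟨i, hi⟩ := this
      have h1 : ¬ Odd (R i ∩ S B i).card := fun h => hi (by
        rw [oddMeet, Finset.mem_filter]
        exact ⟨hR i, h⟩)
      rw [Nat.not_odd_iff_even] at h1
      exact h1.trans_dvd (Finset.dvd_prod_of_mem _ (Finset.mem_univ i)) |> fun h => h
    choose blk hblk using fun x => (hP.partition.2 x).exists
    have hsum : (Fintype.piFinset R).card = ∑ B ∈ PF, ∏ i, (R i ∩ S B i).card := by
      rw [Finset.card_eq_sum_card_fiberwise (f := blk) (t := PF)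
        (fun x _ => by
          have := (hmemPF (blk x)).mpr (hblk x).1
          exact Finset.mem_coe.mpr this)]
      refine Finset.sum_congr rfl fun B hB => ?_
      have hBP := (hmemPF B).mp hB
      have : (Fintype.piFinset R).filter (fun x => blk x = B) =
          Fintype.piFinset fun i => R i ∩ S B i := by
        ext x
        rw [Finset.mem_filter, Fintype.mem_piFinset, Fintype.mem_piFinset]
        have hxB : blk x = B ↔ ∀ i, x i ∈ S B i := by
          rw [← (hS B hBP).2 x]
          constructor
          · intro h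
            rw [← h]; exact (hblk x).2
          · intro h
            exact (hP.partition.2 x).unique (hblk x) ⟨hBP, h⟩
        rw [hxB]
        simp only [Finset.mem_inter]
        exact ⟨fun h i => ⟨h.1 i, h.2 i⟩, fun h => ⟨fun i => (h i).1, fun i => (h i).2⟩⟩
      rw [this, Fintype.card_piFinset]
    have h1 : Even (Fintype.piFinset R).card := by
      rw [hsum]
      exact Finset.even_sum _ heven
    rw [Fintype.card_piFinset] at h1
    have h2 : Odd (∏ i, (R i).card) := Finset.prod_induction _ Odd (fun _ _ => Odd.mul) odd_one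
      fun i _ => hRodd i
    exact (Nat.not_even_iff_odd.mpr h2) h1
  have hcount := (Finset.card_le_card hcov).trans Finset.card_biUnion_le
  rw [Fintype.card_piFinset, Finset.prod_const, Finset.card_univ, Fintype.card_fin] at hcount
  have hhalf : ∀ B ∈ PF, 2 ^ d * (Fintype.piFinset fun i => oddMeet (S B i)).card = N ^ d := by
    intro B hB
    rw [Fintype.card_piFinset]
    have h1 : (2 : ℕ) ^ d = ∏ _i : Fin d, 2 := by simp
    rw [h1, ← Finset.prod_mul_distrib]
    have h2 : ∀ i ∈ (Finset.univ : Finset (Fin d)), 2 * (oddMeet (S B i)).card = N := fun i _ =>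
      two_mul_card_oddMeet ((hS B ((hmemPF B).mp hB)).1 i).1 ((hS B ((hmemPF B).mp hB)).1 i).2
    rw [Finset.prod_congr rfl h2]
    simp
  have h3 : 2 ^ d * N ^ d ≤ PF.card * N ^ d := by
    calc 2 ^ d * N ^ d ≤ 2 ^ d * ∑ B ∈ PF, (Fintype.piFinset fun i => oddMeet (S B i)).card :=
          Nat.mul_le_mul_left _ hcount
      _ = ∑ B ∈ PF, N ^ d := by
          rw [Finset.mul_sum]
          exact Finset.sum_congr rfl hhalf
      _ = PF.card * N ^ d := by simp
  rw [← hPFc]
  exact Nat.le_of_mul_le_mul_right h3 (pow_pos hNpos d)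

theorem two_pow_le_pBox {d k : ℕ} (hk : 2 ≤ k) : 2 ^ d ≤ pBox d k := by
  refine ge_of_tendsto (tendsto_pBoxN d k) ?_
  filter_upwards [eventually_ge_atTop k] with n hn
  have : Nonempty (Fin n) := ⟨⟨0, by omega⟩⟩
  have hne : {m | ∃ P : Set (Set (Fin d → Fin n)), IsPiercing k P ∧ P.ncard = m}.Nonempty := by
    obtain ⟨P, hP⟩ := exists_piercing_of_le (d := d) hn
    exact ⟨_, P, hP, rfl⟩
  obtain ⟨P, hP, hPc⟩ := Nat.sInf_mem hne
  change 2 ^ d ≤ sInf _
  rw [← hPc]
  exact two_pow_le_ncard hk hP

end Pool.Agent.H2.Box
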