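import Pool.Agent.H2.Box.Count
import Pool.Agent.H2.Box.Lower

/-!
# Asymptotics of the explicit bound
-/

namespace Pool.Agent.H2.Box

open Filter Topology

/-- The choice of the parameters. -/
theorem exists_params {d : ℕ} (hd : 1 ≤ d) : ∃ q θ : ℕ, q.Prime ∧ d ≤ q ^ 2 ∧ 0 < θ ∧
    ((θ + q + 2 * (q ^ 3 / θ) + 2 * q : ℕ) : ℝ) ≤ 72 * (d : ℝ) ^ (3 / 4 : ℝ) := by
  set s := Nat.sqrt d with hs
  have hs1 : 1 ≤ s := by rw [hs, Nat.le_sqrt]; simpa using hd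
  obtain ⟨q, hq, hsq, hq2⟩ := Nat.exists_prime_lt_and_le_two_mul (s + 1) (by omega)
  have hq4 : q ≤ 4 * s := by omega
  set r := Nat.sqrt q with hr
  have hr1 : 1 ≤ r := by rw [hr, Nat.le_sqrt]; simpa using hq.one_lt.le
  refine ⟨q, q * (r + 1), hq, ?_, Nat.mul_pos hq.pos (by omega), ?_⟩
  · have h1 : d < (s + 1) ^ 2 := by
      rw [hs, sq]; exact Nat.lt_succ_sqrt d
    nlinarith
  · have h1 : q ^ 3 / (q * (r + 1)) ≤ q * (r + 1) := by
      refine Nat.div_le_of_le_mul ?_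
      have h2 : q ≤ (r + 1) * (r + 1) := by
        rw [hr]; exact (Nat.lt_succ_sqrt q).le
      calc q ^ 3 = q * q * q := by ring
        _ ≤ q * q * ((r + 1) * (r + 1)) := Nat.mul_le_mul_left _ h2
        _ = q * (r + 1) * (q * (r + 1)) := by ring
    have h3 : q * (r + 1) + q + 2 * (q ^ 3 / (q * (r + 1))) + 2 * q ≤ 9 * (q * r) := by
      have : q ≤ q * r := Nat.le_mul_of_pos_right q hr1
      nlinarith
    have hd0 : (0 : ℝ) ≤ d := Nat.cast_nonneg d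
    have hsd : (s : ℝ) ≤ (d : ℝ) ^ (1 / 2 : ℝ) := by
      rw [← Real.sqrt_eq_rpow]
      refine Real.le_sqrt_of_sq_le ?_
      have : s ^ 2 ≤ d := by rw [hs, sq]; exact Nat.sqrt_le d
      exact_mod_cast this
    have hqd : (q : ℝ) ≤ 4 * (d : ℝ) ^ (1 / 2 : ℝ) := by
      have : (q : ℝ) ≤ 4 * (s : ℝ) := by exact_mod_cast hq4
      linarith
    have hrd : (r : ℝ) ≤ 2 * (d : ℝ) ^ (1 / 4 : ℝ) := by
      have h4 : (r : ℝ) ^ 2 ≤ q := by
        have : r ^ 2 ≤ q := by rw [hr, sq]; exact Nat.sqrt_le q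
        exact_mod_cast this
      have h5 : (0 : ℝ) ≤ 2 * (d : ℝ) ^ (1 / 4 : ℝ) := by positivity
      refine abs_le_of_sq_le_sq' ?_ h5 |>.2
      have h6 : (2 * (d : ℝ) ^ (1 / 4 : ℝ)) ^ 2 = 4 * (d : ℝ) ^ (1 / 2 : ℝ) := by
        rw [mul_pow, ← Real.rpow_natCast ((d : ℝ) ^ (1 / 4 : ℝ)) 2, ← Real.rpow_mul hd0]
        norm_num
      rw [h6]
      linarith
    have h7 : (q : ℝ) * r ≤ 8 * (d : ℝ) ^ (3 / 4 : ℝ) := by
      have h8 : (d : ℝ) ^ (3 / 4 : ℝ) = (d : ℝ) ^ (1 / 2 : ℝ) * (d : ℝ) ^ (1 / 4 : ℝ) := by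
        rw [← Real.rpow_add (by exact_mod_cast hd : (0 : ℝ) < d)]
        norm_num
      have h9 : (0 : ℝ) ≤ r := Nat.cast_nonneg r
      calc (q : ℝ) * r ≤ (4 * (d : ℝ) ^ (1 / 2 : ℝ)) * (2 * (d : ℝ) ^ (1 / 4 : ℝ)) :=
            mul_le_mul hqd hrd h9 (by positivity)
        _ = 8 * (d : ℝ) ^ (3 / 4 : ℝ) := by rw [h8]; ring
    calc ((q * (r + 1) + q + 2 * (q ^ 3 / (q * (r + 1))) + 2 * q : ℕ) : ℝ)
        ≤ ((9 * (q * r) : ℕ) : ℝ) := by exact_mod_cast h3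
      _ = 9 * ((q : ℝ) * r) := by push_cast; ring
      _ ≤ 72 * (d : ℝ) ^ (3 / 4 : ℝ) := by linarith

/-- The upper bound in closed form. -/
theorem pBox_le_closed {d k : ℕ} (hd : 1 ≤ d) (hk : 2 ≤ k) :
    (pBox d k : ℝ) ≤ 2 ^ d * ((k : ℝ) * d) ^ (72 * (d : ℝ) ^ (3 / 4 : ℝ)) := by
  obtain ⟨q, θ, hq, hdq, hθ, hle⟩ := exists_params hd
  obtain ⟨K, rfl⟩ : ∃ K, k = K + 2 := ⟨k - 2, by omega⟩
  have h1 := pBox_le_explicit d K q θ hq hdq hθ
  have h2 : (d * K + 1) ^ (θ + q + 2 * (q ^ 3 / θ)) * (d * d + 1) ^ q ≤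
      ((K + 2) * d) ^ (θ + q + 2 * (q ^ 3 / θ) + 2 * q) := by
    generalize θ + q + 2 * (q ^ 3 / θ) = e
    rw [pow_add, pow_mul ((K + 2) * d) 2 q]
    refine Nat.mul_le_mul (Nat.pow_le_pow_left ?_ _) (Nat.pow_le_pow_left ?_ _)
    · nlinarith
    · nlinarith [Nat.zero_le (K * d), Nat.zero_le (K * K * d * d), Nat.mul_le_mul hd hd,
        Nat.zero_le (K * d * d)]
  have h3 : (pBox d (K + 2) : ℝ) ≤
      2 ^ d * (((K + 2 : ℕ) : ℝ) * d) ^ (θ + q + 2 * (q ^ 3 / θ) + 2 * q) := by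
    exact_mod_cast h1.trans (Nat.mul_le_mul_left _ h2)
  refine h3.trans (mul_le_mul_of_nonneg_left ?_ (by positivity))
  have hbase : (1 : ℝ) ≤ ((K + 2 : ℕ) : ℝ) * d := by
    have : 1 ≤ (K + 2) * d := Nat.one_le_iff_ne_zero.mpr (by positivity)
    exact_mod_cast this
  rw [← Real.rpow_natCast]
  exact Real.rpow_le_rpow_of_exponent_le hbase hle

theorem tendsto_error (k : ℕ) (hk : 2 ≤ k) :
    Tendsto (fun d : ℕ => 72 * (d : ℝ) ^ (3 / 4 : ℝ) * Real.log ((k : ℝ) * d) / d) atTop (𝓝 0) := by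
  have hk0 : (0 : ℝ) < k := by exact_mod_cast (by omega : 0 < k)
  have h1 : Tendsto (fun x : ℝ => Real.log x / x ^ (1 / 4 : ℝ)) atTop (𝓝 0) :=
    (isLittleO_log_rpow_atTop (by norm_num : (0 : ℝ) < 1 / 4)).tendsto_div_nhds_zero
  have h2 : Tendsto (fun x : ℝ => Real.log k / x ^ (1 / 4 : ℝ)) atTop (𝓝 0) :=
    tendsto_const_nhds.div_atTop (tendsto_rpow_atTop (by norm_num))
  have h3 : Tendsto (fun x : ℝ => 72 * (Real.log k / x ^ (1 / 4 : ℝ) +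
      Real.log x / x ^ (1 / 4 : ℝ))) atTop (𝓝 0) := by
    simpa using (h2.add h1).const_mul 72
  have h4 := h3.comp (tendsto_natCast_atTop_atTop (R := ℝ))
  refine h4.congr' ?_
  filter_upwards [eventually_gt_atTop 0] with d hd
  have hd0 : (0 : ℝ) < d := by exact_mod_cast hd
  have h5 : (d : ℝ) = (d : ℝ) ^ (3 / 4 : ℝ) * (d : ℝ) ^ (1 / 4 : ℝ) := by
    rw [← Real.rpow_add hd0]; norm_num
  simp only [Function.comp]
  rw [Real.log_mul hk0.ne' hd0.ne']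
  have h6 : (0 : ℝ) < (d : ℝ) ^ (3 / 4 : ℝ) := Real.rpow_pos_of_pos hd0 _
  have h7 : (0 : ℝ) < (d : ℝ) ^ (1 / 4 : ℝ) := Real.rpow_pos_of_pos hd0 _
  have h8 : 72 * (d : ℝ) ^ (3 / 4 : ℝ) * (Real.log k + Real.log d) / d =
      72 * (d : ℝ) ^ (3 / 4 : ℝ) * (Real.log k + Real.log d) /
        ((d : ℝ) ^ (3 / 4 : ℝ) * (d : ℝ) ^ (1 / 4 : ℝ)) := by rw [← h5]
  rw [h8]
  field_simp

/-- The growth rate is exactly `2`. -/
theorem tendsto_root {k : ℕ} (hk : 2 ≤ k) :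
    Tendsto (fun d : ℕ => (pBox d k : ℝ) ^ (1 / (d : ℝ))) atTop (𝓝 2) := by
  have hup : Tendsto (fun d : ℕ => 2 * Real.exp (72 * (d : ℝ) ^ (3 / 4 : ℝ) *
      Real.log ((k : ℝ) * d) / d)) atTop (𝓝 2) := by
    have := (Real.continuous_exp.tendsto 0).comp (tendsto_error k hk)
    rw [Real.exp_zero] at this
    simpa using this.const_mul 2
  refine tendsto_of_tendsto_of_tendsto_of_le_of_le' tendsto_const_nhds hup ?_ ?_
  · filter_upwards [eventually_gt_atTop 0] with d hd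
    have hd0 : (0 : ℝ) < d := by exact_mod_cast hd
    have h1 : (2 : ℝ) ^ d ≤ pBox d k := by exact_mod_cast two_pow_le_pBox (d := d) hk
    have h2 : (2 : ℝ) = ((2 : ℝ) ^ d) ^ (1 / (d : ℝ)) := by
      rw [← Real.rpow_natCast, ← Real.rpow_mul (by norm_num)]
      rw [mul_one_div_cancel hd0.ne', Real.rpow_one]
    calc (2 : ℝ) = ((2 : ℝ) ^ d) ^ (1 / (d : ℝ)) := h2
      _ ≤ _ := Real.rpow_le_rpow (by positivity) h1 (by positivity)
  · filter_upwards [eventually_gt_atTop 0] with d hd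
    have hd0 : (0 : ℝ) < d := by exact_mod_cast hd
    have hk0 : (0 : ℝ) < k := by exact_mod_cast (by omega : 0 < k)
    have h1 := pBox_le_closed (d := d) hd hk
    have h3 : 2 ^ d * ((k : ℝ) * d) ^ (72 * (d : ℝ) ^ (3 / 4 : ℝ)) =
        (2 * Real.exp (72 * (d : ℝ) ^ (3 / 4 : ℝ) * Real.log ((k : ℝ) * d) / d)) ^ (d : ℝ) := by
      rw [Real.mul_rpow (by norm_num) (Real.exp_pos _).le, Real.rpow_natCast, ← Real.exp_mul,
        Real.rpow_def_of_pos (by positivity)]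
      congr 2
      field_simp
    rw [h3] at h1
    calc (pBox d k : ℝ) ^ (1 / (d : ℝ)) ≤ ((2 * Real.exp (72 * (d : ℝ) ^ (3 / 4 : ℝ) *
          Real.log ((k : ℝ) * d) / d)) ^ (d : ℝ)) ^ (1 / (d : ℝ)) :=
          Real.rpow_le_rpow (by positivity) h1 (by positivity)
      _ = _ := by
          rw [← Real.rpow_mul (by positivity), mul_one_div_cancel hd0.ne', Real.rpow_one]

theorem eventually_lt {k : ℕ} (hk : 2 ≤ k) {ε : ℝ} (hε : 0 < ε) :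
    ∀ᶠ d : ℕ in atTop, (pBox d k : ℝ) < (2 + ε) ^ d := by
  have h1 := (tendsto_root hk).eventually (gt_mem_nhds (show (2 : ℝ) < 2 + ε by linarith))
  filter_upwards [h1, eventually_gt_atTop 0] with d hd hd0
  have hd0' : (0 : ℝ) < d := by exact_mod_cast hd0
  have h2 : (pBox d k : ℝ) = ((pBox d k : ℝ) ^ (1 / (d : ℝ))) ^ d := by
    rw [← Real.rpow_natCast, ← Real.rpow_mul (Nat.cast_nonneg _), one_div_mul_cancel hd0'.ne',
      Real.rpow_one]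
  rw [h2]
  exact pow_lt_pow_left₀ hd (by positivity) hd0.ne'

end Pool.Agent.H2.Box
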