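import Pool.Agent.H2.Box.Label

/-!
# Counting the boxes, and the lines of an affine plane as listening sets
-/

namespace Pool.Agent.H2.Box

section Count

variable {d K θ : ℕ} {Lst : (Fin d → Bool) → Finset (Fin d)}

open Classical in
theorem card_read_own (b : Fin d → Bool) (l : Fin d → Mark d K) :
    (Finset.univ.filter fun i => read θ b l i ∧ own b l i).card ≤ θ := by
  set R := Finset.univ.filter fun i => read θ b l i ∧ own b l i with hR
  rcases R.eq_empty_or_nonempty with h | h
  · rw [h]; simp
  · obtain ⟨m, hm, hmax⟩ := Finset.exists_max_image R id h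
    have hm' := hm
    rw [hR, Finset.mem_filter] at hm'
    have h1 : R.erase m ⊆ before b l m := by
      intro x hx
      rw [Finset.mem_erase] at hx
      have hx2 := hx.2
      rw [hR, Finset.mem_filter] at hx2
      simp only [before, Finset.mem_filter, Finset.mem_univ, true_and]
      exact ⟨lt_of_le_of_ne (hmax x hx.2) hx.1, hx2.2.2⟩
    have h2 := Finset.card_le_card h1
    rw [Finset.card_erase_of_mem hm] at h2
    have h3 : (before b l m).card < θ := hm'.2.1
    omega

open Classical in
theorem card_alarm (b : Fin d → Bool) (l : Fin d → Mark d K) :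
    (Finset.univ.filter fun j => alarm θ Lst b l j).card ≤ (Lst b).card := by
  refine Finset.card_le_card_of_injOn
    (fun j => if h : alarm θ Lst b l j then h.choose else j) ?_ ?_
  · intro j hj
    have hj' : alarm θ Lst b l j := by simpa using hj
    simp only [hj', dif_pos]
    obtain ⟨s, -, h2, -⟩ := hj'.choose_spec
    exact h2
  · intro j hj j' hj' hjj
    have h1 : alarm θ Lst b l j := by simpa using hj
    have h2 : alarm θ Lst b l j' := by simpa using hj'
    simp only [h1, h2, dif_pos] at hjj
    obtain ⟨s, -, -, hs⟩ := h1.choose_spec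
    obtain ⟨s', -, -, hs'⟩ := h2.choose_spec
    rw [hjj, hs'] at hs
    simp only [Option.some.injEq, Prod.mk.injEq] at hs
    exact flip_injective b hs.1.symm

open Classical in
theorem card_seenOwn {ℓ D : ℕ} (h1 : ∀ b, (Lst b).card ≤ ℓ)
    (h2 : ∀ b (M : Finset (Fin d)), θ ≤ M.card →
      (Finset.univ.filter fun j => ∀ i ∈ M, i ∉ Lst (flip j b)).card ≤ D)
    (b : Fin d → Bool) (l : Fin d → Mark d K) : (seenOwn θ Lst b l).card ≤ θ + ℓ + D := by
  set R := Finset.univ.filter fun i => read θ b l i ∧ own b l i with hR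
  set A := Finset.univ.filter fun j => alarm θ Lst b l j with hA
  set E := Finset.univ.filter fun j => ¬ read θ b l j ∧ deaf θ Lst b l j with hE
  have hsub : (seenOwn θ Lst b l).image Prod.fst ⊆ (R ∪ A) ∪ E := by
    intro i hi
    rw [Finset.mem_image] at hi
    obtain ⟨⟨i, s⟩, hp, rfl⟩ := hi
    obtain ⟨hQ, hs⟩ := mem_seenOwn.mp hp
    simp only [hR, hA, hE, Finset.mem_union, Finset.mem_filter, Finset.mem_univ, true_and]
    by_cases hr : read θ b l i
    · exact Or.inl (Or.inl ⟨hr, s, hs⟩)
    · rcases hQ with h | h | h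
      · exact absurd h hr
      · exact Or.inl (Or.inr h)
      · exact Or.inr ⟨hr, h⟩
  have hinj : Set.InjOn Prod.fst (seenOwn θ Lst b l : Set (Fin d × Fin K)) := by
    rintro ⟨i, s⟩ hp ⟨i', s'⟩ hp' hii
    simp only at hii
    subst hii
    have e1 := (mem_seenOwn.mp hp).2
    have e2 := (mem_seenOwn.mp hp').2
    rw [e1] at e2
    simp only [Option.some.injEq, Prod.mk.injEq, true_and] at e2
    rw [e2]
  rw [← Finset.card_image_of_injOn hinj]
  have hEc : E.card ≤ D := by
    rcases E.eq_empty_or_nonempty with h | ⟨j, hj⟩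
    · rw [h]; simp
    · rw [hE, Finset.mem_filter] at hj
      have h3 := card_of_not_read hj.2.1
      have h4 : θ ≤ R.card := h3.trans (Finset.card_le_card (by
        intro x hx
        simp only [before, Finset.mem_filter, Finset.mem_univ, true_and] at hx
        simp only [hR, Finset.mem_filter, Finset.mem_univ, true_and]
        exact ⟨hx.2, hx.1.2⟩))
      refine (Finset.card_le_card ?_).trans (h2 b R h4)
      intro x hx
      simp only [hE, Finset.mem_filter, Finset.mem_univ, true_and] at hx
      simp only [Finset.mem_filter, Finset.mem_univ, true_and]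
      intro i hi
      simp only [hR, Finset.mem_filter, Finset.mem_univ, true_and] at hi
      exact hx.2 i hi.1 hi.2
  calc ((seenOwn θ Lst b l).image Prod.fst).card ≤ ((R ∪ A) ∪ E).card := Finset.card_le_card hsub
    _ ≤ (R ∪ A).card + E.card := Finset.card_union_le _ _
    _ ≤ (R.card + A.card) + E.card := by
        gcongr
        exact Finset.card_union_le _ _
    _ ≤ θ + ℓ + D := by
        gcongr
        · exact card_read_own b l
        · exact (card_alarm b l).trans (h1 b)

theorem card_heard (b : Fin d → Bool) (l : Fin d → Mark d K) :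
    (heard θ Lst b l).card ≤ (Lst b).card := by
  refine Finset.card_le_card_of_injOn Prod.fst ?_ ?_
  · rintro ⟨i, j⟩ hp
    exact (mem_heard.mp hp).2.1
  · rintro ⟨i, j⟩ hp ⟨i', j'⟩ hp' hii
    simp only at hii
    subst hii
    obtain ⟨-, -, s, e1⟩ := mem_heard.mp hp
    obtain ⟨-, -, s', e2⟩ := mem_heard.mp hp'
    rw [e1] at e2
    simp only [Option.some.injEq, Prod.mk.injEq] at e2
    rw [flip_injective b e2.1]

theorem parts_ncard_le {ℓ D : ℕ} (h1 : ∀ b, (Lst b).card ≤ ℓ)
    (h2 : ∀ b (M : Finset (Fin d)), θ ≤ M.card →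
      (Finset.univ.filter fun j => ∀ i ∈ M, i ∉ Lst (flip j b)).card ≤ D) :
    (parts θ Lst K).ncard ≤ 2 ^ d * ((d * K + 1) ^ (θ + ℓ + D) * (d * d + 1) ^ ℓ) := by
  classical
  set S : Finset ((Fin d → Bool) × Finset (Fin d × Fin K) × Finset (Fin d × Fin d)) :=
    Finset.univ ×ˢ ((Finset.univ.filter fun s => s.card ≤ θ + ℓ + D) ×ˢ
      (Finset.univ.filter fun s => s.card ≤ ℓ)) with hS
  have hsub : parts θ Lst K ⊆ (fun lab => {y | label θ Lst y = lab}) '' (S : Set _) := by
    rintro _ ⟨x, rfl⟩
    refine ⟨label θ Lst x, ?_, rfl⟩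
    simp only [hS, label, Finset.coe_product, Set.mem_prod, Finset.mem_coe, Finset.mem_univ,
      true_and, Finset.mem_filter]
    exact ⟨card_seenOwn h1 h2 _ _, (card_heard _ _).trans (h1 _)⟩
  calc (parts θ Lst K).ncard ≤ ((fun lab => {y | label θ Lst y = lab}) '' (S : Set _)).ncard :=
        Set.ncard_le_ncard hsub (Set.toFinite _)
    _ ≤ S.card := (Set.ncard_image_le (Set.toFinite _)).trans (Set.ncard_coe_finset S).le
    _ = 2 ^ d * ((Finset.univ.filter fun s : Finset (Fin d × Fin K) =>
          s.card ≤ θ + ℓ + D).card * (Finset.univ.filter fun s : Finset (Fin d × Fin d) =>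
          s.card ≤ ℓ).card) := by
        rw [hS, Finset.card_product, Finset.card_product]
        simp
    _ ≤ 2 ^ d * ((d * K + 1) ^ (θ + ℓ + D) * (d * d + 1) ^ ℓ) := by
        gcongr
        · refine (card_finset_card_le _).trans ?_
          simp
        · refine (card_finset_card_le _).trans ?_
          simp

/-- The abstract upper bound: listening sets give a piercing partition. -/
theorem pBox_le_of_listening {ℓ D : ℕ} (θ : ℕ) (Lst : (Fin d → Bool) → Finset (Fin d))
    (h1 : ∀ b, (Lst b).card ≤ ℓ)
    (h2 : ∀ b (M : Finset (Fin d)), θ ≤ M.card →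
      (Finset.univ.filter fun j => ∀ i ∈ M, i ∉ Lst (flip j b)).card ≤ D) (K : ℕ) :
    pBox d (K + 2) ≤ 2 ^ d * ((d * K + 1) ^ (θ + ℓ + D) * (d * d + 1) ^ ℓ) :=
  (pBox_le_of_piercing (parts_piercing (θ := θ) (Lst := Lst) (K := K))).trans
    (parts_ncard_le h1 h2)

end Count

section Design

variable {q : ℕ} [Fact q.Prime]

/-- The point `P` lies on the line `y = m x + b`, `c = (m, b)`. -/
def Inc (c P : ZMod q × ZMod q) : Prop := P.2 = c.1 * P.1 + c.2

instance (c P : ZMod q × ZMod q) : Decidable (Inc c P) := by unfold Inc; infer_instance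

theorem card_lines_through (P : ZMod q × ZMod q) :
    (Finset.univ.filter fun c : ZMod q × ZMod q => Inc c P).card = q := by
  have h : (Finset.univ.filter fun c : ZMod q × ZMod q => Inc c P) =
      Finset.univ.image fun m : ZMod q => (m, P.2 - m * P.1) := by
    ext ⟨m, b⟩
    rw [Finset.mem_filter, Finset.mem_image]
    simp only [Finset.mem_univ, true_and, Prod.mk.injEq]
    unfold Inc
    constructor
    · intro h
      exact ⟨m, rfl, by rw [h]; ring⟩
    · rintro ⟨m', rfl, h⟩
      rw [← h]; ring
  rw [h, Finset.card_image_of_injective _ (fun a b hab => (Prod.mk.inj hab).1)]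
  simp [ZMod.card]

theorem card_lines_through_two {P P' : ZMod q × ZMod q} (hne : P ≠ P') :
    (Finset.univ.filter fun c : ZMod q × ZMod q => Inc c P ∧ Inc c P').card ≤ 1 := by
  rw [Finset.card_le_one]
  rintro ⟨m, b⟩ h ⟨m', b'⟩ h'
  rw [Finset.mem_filter] at h h'
  simp only [Finset.mem_univ, true_and] at h h'
  unfold Inc at h h'
  have hx : P.1 - P'.1 ≠ 0 := by
    intro h0
    have h1 : P.1 = P'.1 := sub_eq_zero.mp h0
    apply hne
    refine Prod.ext h1 ?_
    rw [h.1, h.2, h1]
  have hm : m = m' := by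
    have e : (m - m') * (P.1 - P'.1) = 0 := by
      linear_combination (-h.1 + h.2 + h'.1 - h'.2)
    exact sub_eq_zero.mp ((mul_eq_zero.mp e).resolve_right hx)
  subst hm
  have hb : b = b' := by linear_combination (h'.1 - h.1)
  rw [hb]

/-- A set of `t` points of the affine plane misses at most `q^3 / t` non-vertical lines. -/
theorem missing_lines (M : Finset (ZMod q × ZMod q)) :
    (Finset.univ.filter fun c : ZMod q × ZMod q => ∀ P ∈ M, ¬ Inc c P).card * M.card ≤ q ^ 3 := by
  classical
  have hsum : ∑ c : ZMod q × ZMod q, ((M.filter fun P => Inc c P).card : ℤ) = M.card * q := by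
    simp only [Finset.card_filter, Nat.cast_sum]
    rw [Finset.sum_comm]
    have : ∀ P ∈ M, ∑ c : ZMod q × ZMod q, (((if Inc c P then 1 else 0 : ℕ)) : ℤ) = q := by
      intro P _
      rw [← Nat.cast_sum, ← Finset.card_filter, card_lines_through]
    rw [Finset.sum_congr rfl this]
    simp
  have hsq : ∑ c : ZMod q × ZMod q, ((M.filter fun P => Inc c P).card : ℤ) ^ 2 ≤
      M.card * q + (M.card : ℤ) ^ 2 := by
    have h1 : ∀ c : ZMod q × ZMod q, ((M.filter fun P => Inc c P).card : ℤ) ^ 2 =
        ∑ P ∈ M, ∑ P' ∈ M, ((if Inc c P ∧ Inc c P' then 1 else 0 : ℕ) : ℤ) := by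
      intro c
      rw [Finset.card_filter, sq, Nat.cast_sum, Finset.sum_mul_sum]
      refine Finset.sum_congr rfl fun P _ => Finset.sum_congr rfl fun P' _ => ?_
      by_cases h1 : Inc c P <;> by_cases h2 : Inc c P' <;> simp [h1, h2]
    rw [Finset.sum_congr rfl fun c _ => h1 c, Finset.sum_comm]
    have h2 : ∀ P ∈ M, ∑ c : ZMod q × ZMod q, ∑ P' ∈ M,
        ((if Inc c P ∧ Inc c P' then 1 else 0 : ℕ) : ℤ) ≤ q + M.card := by
      intro P hP
      rw [Finset.sum_comm]
      have h3 : ∀ P' ∈ M, ∑ c : ZMod q × ZMod q,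
          ((if Inc c P ∧ Inc c P' then 1 else 0 : ℕ) : ℤ) ≤ (if P' = P then (q : ℤ) else 0) + 1 := by
        intro P' _
        rw [← Nat.cast_sum, ← Finset.card_filter]
        by_cases hPP : P' = P
        · subst hPP
          simp only [and_self, card_lines_through, if_true]
          omega
        · rw [if_neg hPP, zero_add]
          exact_mod_cast card_lines_through_two (Ne.symm hPP)
      refine (Finset.sum_le_sum h3).trans ?_
      rw [Finset.sum_add_distrib, Finset.sum_ite_eq' M P, if_pos hP]
      simp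
    refine (Finset.sum_le_sum h2).trans ?_
    rw [Finset.sum_const, nsmul_eq_mul]
    nlinarith
  set N := (Finset.univ.filter fun c : ZMod q × ZMod q => ∀ P ∈ M, ¬ Inc c P) with hN
  have hcard : (Finset.univ : Finset (ZMod q × ZMod q)).card = q * q := by
    simp [ZMod.card]
  have hvar : ∑ c : ZMod q × ZMod q,
      ((q : ℤ) * ((M.filter fun P => Inc c P).card : ℤ) - M.card) ^ 2 ≤ (q : ℤ) ^ 3 * M.card := by
    have e : ∀ c : ZMod q × ZMod q,
        ((q : ℤ) * ((M.filter fun P => Inc c P).card : ℤ) - M.card) ^ 2 =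
        (q : ℤ) ^ 2 * ((M.filter fun P => Inc c P).card : ℤ) ^ 2 -
        2 * q * M.card * ((M.filter fun P => Inc c P).card : ℤ) + (M.card : ℤ) ^ 2 :=
      fun c => by ring
    rw [Finset.sum_congr rfl fun c _ => e c, Finset.sum_add_distrib, Finset.sum_sub_distrib,
      ← Finset.mul_sum, ← Finset.mul_sum, hsum, Finset.sum_const, hcard, nsmul_eq_mul]
    push_cast
    have hq : (0 : ℤ) ≤ (q : ℤ) ^ 2 := by positivity
    have := mul_le_mul_of_nonneg_left hsq hq
    nlinarith
  have hlow : (N.card : ℤ) * (M.card : ℤ) ^ 2 ≤ (q : ℤ) ^ 3 * M.card := by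
    refine le_trans ?_ hvar
    have h1 : ∑ c ∈ N, ((q : ℤ) * ((M.filter fun P => Inc c P).card : ℤ) - M.card) ^ 2 =
        N.card * (M.card : ℤ) ^ 2 := by
      have : ∀ c ∈ N, ((q : ℤ) * ((M.filter fun P => Inc c P).card : ℤ) - M.card) ^ 2 =
          (M.card : ℤ) ^ 2 := by
        intro c hc
        rw [hN, Finset.mem_filter] at hc
        have : (M.filter fun P => Inc c P) = ∅ := Finset.filter_eq_empty_iff.mpr hc.2
        rw [this]
        simp
      rw [Finset.sum_congr rfl this, Finset.sum_const, nsmul_eq_mul]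
    rw [← h1]
    exact Finset.sum_le_univ_sum_of_nonneg fun c => sq_nonneg _
  rcases Nat.eq_zero_or_pos M.card with h0 | hpos
  · rw [h0]; simp
  · have hpos' : (0 : ℤ) < M.card := by exact_mod_cast hpos
    have : (N.card : ℤ) * M.card ≤ (q : ℤ) ^ 3 := by
      have h2 : ((N.card : ℤ) * M.card) * M.card ≤ (q : ℤ) ^ 3 * M.card := by
        calc ((N.card : ℤ) * M.card) * M.card = (N.card : ℤ) * (M.card : ℤ) ^ 2 := by ring
          _ ≤ _ := hlow
      exact le_of_mul_le_mul_right h2 hpos'
    exact_mod_cast this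

variable {d : ℕ} (g : Fin d → ZMod q × ZMod q)

/-- The colour of a vertex. -/
def col (b : Fin d → Bool) : ZMod q × ZMod q := ∑ i, if b i then g i else 0

theorem col_flip (b : Fin d → Bool) (j : Fin d) :
    col g (flip j b) = if b j then col g b - g j else col g b + g j := by
  have h1 : ∀ b : Fin d → Bool,
      col g b = (if b j then g j else 0) + ∑ i ∈ Finset.univ.erase j, if b i then g i else 0 :=
    fun b => (Finset.add_sum_erase _ _ (Finset.mem_univ j)).symm
  have h2 : ∑ i ∈ Finset.univ.erase j, (if flip j b i then g i else 0) =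
      ∑ i ∈ Finset.univ.erase j, if b i then g i else 0 := by
    refine Finset.sum_congr rfl fun i hi => ?_
    simp [flip, Function.update_of_ne (Finset.ne_of_mem_erase hi)]
  rw [h1 (flip j b), h2, h1 b]
  by_cases hb : b j <;> simp [flip, hb, add_comm]

/-- The listening set of a vertex: the points on the line given by its colour. -/
def lst (b : Fin d → Bool) : Finset (Fin d) := Finset.univ.filter fun i => Inc (col g b) (g i)

variable {g}

theorem card_lst (hg : Function.Injective g) (b : Fin d → Bool) : (lst g b).card ≤ q := by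
  have : (lst g b).card ≤ (Finset.univ : Finset (ZMod q)).card := by
    refine Finset.card_le_card_of_injOn (fun i => (g i).1) (fun _ _ => Finset.mem_coe.mpr (Finset.mem_univ _)) ?_
    intro i hi i' hi' hii
    simp only at hii
    have h1 : Inc (col g b) (g i) := by simpa [lst] using hi
    have h2 : Inc (col g b) (g i') := by simpa [lst] using hi'
    unfold Inc at h1 h2
    exact hg (Prod.ext hii (by rw [h1, h2, hii]))
  simpa [ZMod.card] using this

theorem card_deaf (hg : Function.Injective g) {θ : ℕ} (hθ : 0 < θ) (b : Fin d → Bool)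
    (M : Finset (Fin d)) (hM : θ ≤ M.card) :
    (Finset.univ.filter fun j => ∀ i ∈ M, i ∉ lst g (flip j b)).card ≤ 2 * (q ^ 3 / θ) := by
  classical
  set N := (Finset.univ.filter fun c : ZMod q × ZMod q => ∀ P ∈ M.image g, ¬ Inc c P) with hN
  have hNc : N.card ≤ q ^ 3 / θ := by
    rw [Nat.le_div_iff_mul_le hθ]
    refine le_trans (Nat.mul_le_mul_left _ hM) ?_
    have := missing_lines (M.image g)
    rwa [Finset.card_image_of_injective _ hg] at this
  have hmem : ∀ j, (∀ i ∈ M, i ∉ lst g (flip j b)) → col g (flip j b) ∈ N := by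
    intro j hj
    rw [hN, Finset.mem_filter]
    refine ⟨Finset.mem_univ _, fun P hP => ?_⟩
    obtain ⟨i, hi, rfl⟩ := Finset.mem_image.mp hP
    intro hinc
    exact hj i hi (by simpa [lst] using hinc)
  set T := (Finset.univ.filter fun j => ∀ i ∈ M, i ∉ lst g (flip j b)) with hT
  have h1 : (T.filter fun j => b j = true).card ≤ N.card := by
    refine Finset.card_le_card_of_injOn (fun j => col g (flip j b)) ?_ ?_
    · intro j hj
      rw [Finset.mem_coe, Finset.mem_filter, hT, Finset.mem_filter] at hj
      exact Finset.mem_coe.mpr (hmem j hj.1.2)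
    · intro j hj j' hj' hjj
      rw [Finset.mem_coe, Finset.mem_filter] at hj hj'
      simp only [col_flip, hj.2, hj'.2, if_true] at hjj
      exact hg (sub_right_injective hjj)
  have h2 : (T.filter fun j => ¬ b j = true).card ≤ N.card := by
    refine Finset.card_le_card_of_injOn (fun j => col g (flip j b)) ?_ ?_
    · intro j hj
      rw [Finset.mem_coe, Finset.mem_filter, hT, Finset.mem_filter] at hj
      exact Finset.mem_coe.mpr (hmem j hj.1.2)
    · intro j hj j' hj' hjj
      rw [Finset.mem_coe, Finset.mem_filter] at hj hj'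
      simp only [col_flip, hj.2, hj'.2] at hjj
      exact hg (by simpa using hjj)
  rw [← Finset.card_filter_add_card_filter_not (s := T) (fun j => b j = true)]
  omega

/-- The explicit upper bound. -/
theorem pBox_le_explicit (d K q θ : ℕ) (hq : q.Prime) (hd : d ≤ q ^ 2) (hθ : 0 < θ) :
    pBox d (K + 2) ≤
      2 ^ d * ((d * K + 1) ^ (θ + q + 2 * (q ^ 3 / θ)) * (d * d + 1) ^ q) := by
  have : Fact q.Prime := ⟨hq⟩
  obtain ⟨g⟩ : Nonempty (Fin d ↪ ZMod q × ZMod q) := by
    rw [Function.Embedding.nonempty_iff_card_le]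
    simpa [ZMod.card, sq] using hd
  exact pBox_le_of_listening θ (lst g) (card_lst g.injective)
    (fun b M hM => card_deaf g.injective hθ b M hM) K

end Design

end Pool.Agent.H2.Box
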