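import Mathlib

/-!
# Partitions of discrete cubes into boxes: definitions and general facts
-/

namespace Pool.Agent.H2.Box

open Filter Topology

/-- A box in `α^d`: a product of nonempty sets (not necessarily intervals). -/
def IsBox {d : ℕ} {α : Type*} (B : Set (Fin d → α)) : Prop :=
  ∃ S : Fin d → Set α, (∀ i, (S i).Nonempty) ∧ B = Set.univ.pi S

/-- The line in direction `i` through the point `c`. -/
def line {d : ℕ} {α : Type*} (i : Fin d) (c : Fin d → α) : Set (Fin d → α) :=
  {x | ∀ j, j ≠ i → x j = c j}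

/-- `P` is a partition of `α^d` into boxes such that every line meets at least `k` of them. -/
structure IsPiercing {d : ℕ} {α : Type*} (k : ℕ) (P : Set (Set (Fin d → α))) : Prop where
  partition : Setoid.IsPartition P
  box : ∀ B ∈ P, IsBox B
  pierce : ∀ (i : Fin d) (c : Fin d → α), k ≤ {B ∈ P | (B ∩ line i c).Nonempty}.ncard

/-- The least number of boxes in a partition of `[n]^d` into boxes with the `k`-piercing
property. -/
noncomputable def pBoxN (n d k : ℕ) : ℕ :=
  sInf {m | ∃ P : Set (Set (Fin d → Fin n)), IsPiercing k P ∧ P.ncard = m}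

/-- The limit of `pBoxN n d k` as `n → ∞`. -/
noncomputable def pBox (d k : ℕ) : ℕ := limUnder atTop (fun n => pBoxN n d k)

section Pullback

variable {d : ℕ} {α β : Type*}

theorem preimage_pi (f : α → β) (S : Fin d → Set β) :
    (fun x : Fin d → α => f ∘ x) ⁻¹' (Set.univ.pi S) = Set.univ.pi fun i => f ⁻¹' (S i) := by
  ext x
  simp [Set.mem_pi]

theorem comp_surjective {f : α → β} (hf : Function.Surjective f) :
    Function.Surjective (fun x : Fin d → α => f ∘ x) := by
  intro y
  choose g hg using hf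
  exact ⟨fun i => g (y i), funext fun i => hg (y i)⟩

theorem IsBox.preimage {f : α → β} (hf : Function.Surjective f) {B : Set (Fin d → β)}
    (hB : IsBox B) : IsBox ((fun x : Fin d → α => f ∘ x) ⁻¹' B) := by
  obtain ⟨S, hS, rfl⟩ := hB
  refine ⟨fun i => f ⁻¹' (S i), fun i => ?_, preimage_pi f S⟩
  obtain ⟨b, hb⟩ := hS i
  obtain ⟨a, rfl⟩ := hf b
  exact ⟨a, hb⟩

/-- Pulling back a piercing partition along a surjection of alphabets. -/
theorem IsPiercing.pullback [Finite α] {f : α → β} (hf : Function.Surjective f) {k : ℕ}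
    {P : Set (Set (Fin d → β))} (hP : IsPiercing k P) :
    IsPiercing k ((fun B => (fun x : Fin d → α => f ∘ x) ⁻¹' B) '' P) ∧
      ((fun B => (fun x : Fin d → α => f ∘ x) ⁻¹' B) '' P).ncard = P.ncard := by
  have hsurj := comp_surjective (d := d) hf
  have hinj : Function.Injective (fun B => (fun x : Fin d → α => f ∘ x) ⁻¹' B) :=
    Set.preimage_injective.mpr hsurj
  refine ⟨⟨⟨?_, ?_⟩, ?_, ?_⟩, Set.ncard_image_of_injective P hinj⟩
  · rintro ⟨B, hB, h0⟩
    obtain ⟨x, hx⟩ : B.Nonempty := by
      rw [Set.nonempty_iff_ne_empty]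
      rintro rfl
      exact hP.partition.1 hB
    obtain ⟨y, hy⟩ := hsurj x
    have : y ∈ (fun x : Fin d → α => f ∘ x) ⁻¹' B := by
      simpa [hy] using (show (fun x : Fin d → α => f ∘ x) y ∈ B by rw [hy]; exact hx)
    simp only at h0
    rw [h0] at this
    exact this
  · intro y
    obtain ⟨B, ⟨hB, hyB⟩, huniq⟩ := hP.partition.2 (f ∘ y)
    refine ⟨_, ⟨⟨B, hB, rfl⟩, hyB⟩, ?_⟩
    rintro _ ⟨⟨B', hB', rfl⟩, hy'⟩
    rw [huniq B' ⟨hB', hy'⟩]
  · rintro _ ⟨B, hB, rfl⟩
    exact (hP.box B hB).preimage hf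
  · intro i c
    have h1 := hP.pierce i (f ∘ c)
    refine h1.trans ?_
    have h2 : (fun B => (fun x : Fin d → α => f ∘ x) ⁻¹' B) ''
        {B ∈ P | (B ∩ line i (f ∘ c)).Nonempty} ⊆
        {B ∈ (fun B => (fun x : Fin d → α => f ∘ x) ⁻¹' B) '' P | (B ∩ line i c).Nonempty} := by
      rintro _ ⟨B, ⟨hB, x, hxB, hxl⟩, rfl⟩
      refine ⟨⟨B, hB, rfl⟩, ?_⟩
      obtain ⟨a, ha⟩ := hf (x i)
      refine ⟨Function.update c i a, ?_, ?_⟩
      · have : f ∘ (Function.update c i a) = x := by
          funext j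
          by_cases hj : j = i
          · subst hj; simp [ha]
          · simp [Function.update_of_ne hj, hxl j hj]
        change f ∘ (Function.update c i a) ∈ B
        rw [this]; exact hxB
      · intro j hj
        exact Function.update_of_ne hj _ _
    rw [← Set.ncard_image_of_injective _ hinj]
    refine Set.ncard_le_ncard h2 ?_
    exact Set.toFinite _

end Pullback

/-- The partition of `α^d` into points. -/
theorem exists_piercing_of_le {d k n : ℕ} (h : k ≤ n) :
    ∃ P : Set (Set (Fin d → Fin n)), IsPiercing k P := by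
  refine ⟨Set.range fun x => {x}, ⟨⟨?_, ?_⟩, ?_, ?_⟩⟩
  · rintro ⟨x, hx⟩
    exact Set.singleton_ne_empty x hx
  · intro a
    refine ⟨{a}, ⟨⟨a, rfl⟩, rfl⟩, ?_⟩
    rintro _ ⟨⟨x, rfl⟩, hx⟩
    rw [Set.mem_singleton_iff] at hx
    rw [hx]
  · rintro _ ⟨x, rfl⟩
    refine ⟨fun i => {x i}, fun i => Set.singleton_nonempty _, ?_⟩
    ext y
    simp [Set.mem_pi, funext_iff]
  · intro i c
    have h1 : ((fun a : Fin n => ({Function.update c i a} : Set (Fin d → Fin n))) '' Set.univ) ⊆
        {B ∈ Set.range fun x : Fin d → Fin n => ({x} : Set (Fin d → Fin n)) |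
          (B ∩ line i c).Nonempty} := by
      rintro _ ⟨a, -, rfl⟩
      refine ⟨⟨_, rfl⟩, Function.update c i a, rfl, ?_⟩
      intro j hj
      exact Function.update_of_ne hj _ _
    have h2 : Function.Injective
        (fun a : Fin n => ({Function.update c i a} : Set (Fin d → Fin n))) := by
      intro a b hab
      have := Set.singleton_injective hab
      simpa using congrFun this i
    calc k ≤ n := h
      _ = (Set.univ : Set (Fin n)).ncard := by simp [Set.ncard_univ]
      _ = _ := (Set.ncard_image_of_injective _ h2).symm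
      _ ≤ _ := Set.ncard_le_ncard h1 (Set.toFinite _)

theorem pBoxN_le_of {n d k : ℕ} {P : Set (Set (Fin d → Fin n))} (hP : IsPiercing k P) :
    pBoxN n d k ≤ P.ncard := Nat.sInf_le ⟨P, hP, rfl⟩

/-- Any piercing partition over a finite alphabet bounds `pBoxN` for all large `n`. -/
theorem pBoxN_le_of_card_le {α : Type*} [Fintype α] [Nonempty α] {n d k : ℕ}
    (hn : Fintype.card α ≤ n) {P : Set (Set (Fin d → α))} (hP : IsPiercing k P) :
    pBoxN n d k ≤ P.ncard := by
  classical
  obtain ⟨f, hf⟩ : ∃ f : Fin n → α, Function.Surjective f := by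
    have e := (Fintype.equivFin α).symm
    have : Nonempty (α ↪ Fin n) := by
      rw [Function.Embedding.nonempty_iff_card_le]
      simpa using hn
    obtain ⟨g⟩ := this
    exact ⟨Function.invFun g, Function.invFun_surjective g.injective⟩
  obtain ⟨h1, h2⟩ := hP.pullback hf
  rw [← h2]
  exact pBoxN_le_of h1

theorem pBoxN_antitone {d k n m : ℕ} (hk : k ≤ n) (hnm : n ≤ m) (hn : 0 < n) :
    pBoxN m d k ≤ pBoxN n d k := by
  have : Nonempty (Fin n) := ⟨⟨0, hn⟩⟩
  have hne : {m | ∃ P : Set (Set (Fin d → Fin n)), IsPiercing k P ∧ P.ncard = m}.Nonempty := by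
    obtain ⟨P, hP⟩ := exists_piercing_of_le (d := d) hk
    exact ⟨_, P, hP, rfl⟩
  obtain ⟨P, hP, hPc⟩ := Nat.sInf_mem hne
  change pBoxN m d k ≤ sInf _
  rw [← hPc]
  exact pBoxN_le_of_card_le (by simpa using hnm) hP

/-- The sequence `pBoxN n d k` is eventually constant, so the limit exists. -/
theorem tendsto_pBoxN (d k : ℕ) : Tendsto (fun n => pBoxN n d k) atTop (𝓝 (pBox d k)) := by
  refine tendsto_nhds_limUnder ?_
  have hanti : Antitone fun n => pBoxN (n + (k + 1)) d k := by
    intro a b hab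
    exact pBoxN_antitone (by omega) (by omega) (by omega)
  have hbdd : BddBelow (Set.range fun n => pBoxN (n + (k + 1)) d k) := OrderBot.bddBelow _
  refine ⟨_, (tendsto_add_atTop_iff_nat (k + 1)).mp (tendsto_atTop_ciInf hanti hbdd)⟩

theorem pBox_le_of_piercing {α : Type*} [Fintype α] [Nonempty α] {d k : ℕ}
    {P : Set (Set (Fin d → α))} (hP : IsPiercing k P) : pBox d k ≤ P.ncard :=
  le_of_tendsto (tendsto_pBoxN d k)
    ((eventually_ge_atTop (Fintype.card α)).mono fun _ hn => pBoxN_le_of_card_le hn hP)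

end Pool.Agent.H2.Box
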