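import Pool.Agent.H2.Box.Tree

/-!
# The partition defined by the decision trees
-/

namespace Pool.Agent.H2.Box

/-- Finite sets of size at most `m` are few. -/
theorem card_finset_card_le {α : Type*} [Fintype α] [DecidableEq α] (m : ℕ) :
    (Finset.univ.filter fun s : Finset α => s.card ≤ m).card ≤ (Fintype.card α + 1) ^ m := by
  classical
  have h1 : (Fintype.card α + 1) ^ m = (Finset.univ : Finset (Fin m → Option α)).card := by
    simp
  rw [h1]
  refine Finset.card_le_card_of_surjOn
    (fun g => Finset.univ.filter fun a => ∃ t, g t = some a) ?_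
  intro s hs
  have hs' : s.card ≤ m := by simpa using hs
  refine ⟨fun t => if h : (t : ℕ) < s.card then some (s.equivFin.symm ⟨t, h⟩ : α) else none,
    by simp, ?_⟩
  ext a
  simp only [Finset.mem_filter, Finset.mem_univ, true_and]
  constructor
  · rintro ⟨t, ht⟩
    split_ifs at ht with h
    rw [← Option.some_injective _ ht]
    exact (s.equivFin.symm ⟨t, h⟩).2
  · intro ha
    refine ⟨⟨s.equivFin ⟨a, ha⟩, (s.equivFin ⟨a, ha⟩).2.trans_le hs'⟩, ?_⟩
    simp

section Label

variable {d K : ℕ} (θ : ℕ) (Lst : (Fin d → Bool) → Finset (Fin d))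

/-- The bits of a point. -/
def bits (x : Fin d → Letter d K) : Fin d → Bool := fun i => (x i).1

/-- The marks of a point. -/
def marks (x : Fin d → Letter d K) : Fin d → Mark d K := fun i => (x i).2

open Classical in
/-- The own marks seen. -/
noncomputable def seenOwn (b : Fin d → Bool) (l : Fin d → Mark d K) : Finset (Fin d × Fin K) :=
  Finset.univ.filter fun p => Q θ Lst b l p.1 ∧ l p.1 = some (b, p.2)

open Classical in
/-- The marks of neighbours heard. -/
noncomputable def heard (b : Fin d → Bool) (l : Fin d → Mark d K) : Finset (Fin d × Fin d) :=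
  Finset.univ.filter fun p =>
    Q θ Lst b l p.1 ∧ p.1 ∈ Lst b ∧ ∃ s, l p.1 = some (flip p.2 b, s)

/-- The label of a point. -/
noncomputable def label (x : Fin d → Letter d K) :
    (Fin d → Bool) × Finset (Fin d × Fin K) × Finset (Fin d × Fin d) :=
  (bits x, seenOwn θ Lst (bits x) (marks x), heard θ Lst (bits x) (marks x))

variable {θ Lst}

theorem mem_seenOwn {b : Fin d → Bool} {l : Fin d → Mark d K} {i : Fin d} {s : Fin K} :
    (i, s) ∈ seenOwn θ Lst b l ↔ Q θ Lst b l i ∧ l i = some (b, s) := by
  simp [seenOwn]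

theorem mem_heard {b : Fin d → Bool} {l : Fin d → Mark d K} {i j : Fin d} :
    (i, j) ∈ heard θ Lst b l ↔ Q θ Lst b l i ∧ i ∈ Lst b ∧ ∃ s, l i = some (flip j b, s) := by
  simp [heard]

open Classical in
theorem read_iff_seen {b : Fin d → Bool} {l : Fin d → Mark d K} (i : Fin d) :
    read θ b l i ↔
      (Finset.univ.filter fun i' => i' < i ∧ ∃ s, (i', s) ∈ seenOwn θ Lst b l).card < θ := by
  constructor
  · intro h
    refine lt_of_le_of_lt (Finset.card_le_card ?_) h
    intro x hx
    simp only [before, Finset.mem_filter, Finset.mem_univ, true_and] at hx ⊢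
    obtain ⟨h1, s, hs⟩ := hx
    exact ⟨h1, s, (mem_seenOwn.mp hs).2⟩
  · intro h
    by_contra hi
    have h1 := card_of_not_read hi
    have h2 : ((before b l i).filter fun i' => read θ b l i') ⊆
        Finset.univ.filter fun i' => i' < i ∧ ∃ s, (i', s) ∈ seenOwn θ Lst b l := by
      intro x hx
      simp only [before, Finset.mem_filter, Finset.mem_univ, true_and] at hx ⊢
      obtain ⟨⟨h1, s, hs⟩, h3⟩ := hx
      exact ⟨h1, s, mem_seenOwn.mpr ⟨Or.inl h3, hs⟩⟩
    have h3 := Finset.card_le_card h2
    omega

theorem Q_iff_of_seen {b : Fin d → Bool} {l l' : Fin d → Mark d K}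
    (h1 : seenOwn θ Lst b l' = seenOwn θ Lst b l) (h2 : heard θ Lst b l' = heard θ Lst b l)
    (j : Fin d) : Q θ Lst b l' j ↔ Q θ Lst b l j := by
  classical
  have hr : ∀ i, read θ b l' i ↔ read θ b l i := fun i => by
    rw [read_iff_seen (Lst := Lst), read_iff_seen (Lst := Lst), h1]
  have ha : alarm θ Lst b l' j ↔ alarm θ Lst b l j := by
    constructor
    · rintro ⟨i, s, hi, hl, hs⟩
      have : (i, j) ∈ heard θ Lst b l' := mem_heard.mpr ⟨Or.inl hi, hl, s, hs⟩
      rw [h2] at this
      obtain ⟨-, -, s', hs'⟩ := mem_heard.mp this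
      exact ⟨i, s', (hr i).mp hi, hl, hs'⟩
    · rintro ⟨i, s, hi, hl, hs⟩
      have : (i, j) ∈ heard θ Lst b l := mem_heard.mpr ⟨Or.inl hi, hl, s, hs⟩
      rw [← h2] at this
      obtain ⟨-, -, s', hs'⟩ := mem_heard.mp this
      exact ⟨i, s', (hr i).mpr hi, hl, hs'⟩
  have hd : deaf θ Lst b l' j ↔ deaf θ Lst b l j := by
    refine forall_congr' fun i => ?_
    constructor
    · rintro hh hi ⟨s, hs⟩
      have : (i, s) ∈ seenOwn θ Lst b l := mem_seenOwn.mpr ⟨Or.inl hi, hs⟩
      rw [← h1] at this
      exact hh ((hr i).mpr hi) ⟨s, (mem_seenOwn.mp this).2⟩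
    · rintro hh hi ⟨s, hs⟩
      have : (i, s) ∈ seenOwn θ Lst b l' := mem_seenOwn.mpr ⟨Or.inl hi, hs⟩
      rw [h1] at this
      exact hh ((hr i).mp hi) ⟨s, (mem_seenOwn.mp this).2⟩
  unfold Q
  rw [hr, ha, hd]

/-- The label determines and is determined by what is seen on the coordinates looked at. -/
theorem label_eq_iff (x y : Fin d → Letter d K) :
    label θ Lst y = label θ Lst x ↔ ∀ i, (y i).1 = (x i).1 ∧
      (Q θ Lst (bits x) (marks x) i → Agree Lst (bits x) i (x i).2 (y i).2) := by
  constructor
  · intro h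
    unfold label at h
    simp only [Prod.mk.injEq] at h
    obtain ⟨hb, h1, h2⟩ := h
    rw [hb] at h1 h2
    intro i
    refine ⟨congrFun hb i, fun hQ => ?_⟩
    have hQ' : Q θ Lst (bits x) (marks y) i := (Q_iff_of_seen h1 h2 i).mpr hQ
    constructor
    · intro s
      constructor
      · intro hs
        have : (i, s) ∈ seenOwn θ Lst (bits x) (marks x) := mem_seenOwn.mpr ⟨hQ, hs⟩
        rw [← h1] at this
        exact (mem_seenOwn.mp this).2
      · intro hs
        have : (i, s) ∈ seenOwn θ Lst (bits x) (marks y) := mem_seenOwn.mpr ⟨hQ', hs⟩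
        rw [h1] at this
        exact (mem_seenOwn.mp this).2
    · intro hl j
      constructor
      · intro hs
        have : (i, j) ∈ heard θ Lst (bits x) (marks x) := mem_heard.mpr ⟨hQ, hl, hs⟩
        rw [← h2] at this
        exact (mem_heard.mp this).2.2
      · intro hs
        have : (i, j) ∈ heard θ Lst (bits x) (marks y) := mem_heard.mpr ⟨hQ', hl, hs⟩
        rw [h2] at this
        exact (mem_heard.mp this).2.2
  · intro h
    have hb : bits y = bits x := funext fun i => (h i).1
    have hQ : ∀ j, Q θ Lst (bits x) (marks y) j ↔ Q θ Lst (bits x) (marks x) j :=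
      Q_iff_of_agree fun i hi => (h i).2 (Or.inl hi)
    unfold label
    simp only [Prod.mk.injEq]
    refine ⟨hb, ?_, ?_⟩
    · rw [hb]
      ext ⟨i, s⟩
      rw [mem_seenOwn, mem_seenOwn, hQ]
      refine and_congr_right fun hi => ?_
      exact (((h i).2 hi).1 s).symm
    · rw [hb]
      ext ⟨i, j⟩
      rw [mem_heard, mem_heard, hQ]
      refine and_congr_right fun hi => ?_
      refine and_congr_right fun hl => ?_
      exact (((h i).2 hi).2 hl j).symm

variable (θ Lst)

/-- The partition into the fibres of the label. -/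
def parts (K : ℕ) : Set (Set (Fin d → Letter d K)) := (Setoid.ker (label (K := K) θ Lst)).classes

variable {θ Lst}

theorem isBox_fibre (x : Fin d → Letter d K) : IsBox {y | label θ Lst y = label θ Lst x} := by
  refine ⟨fun i => {a | a.1 = (x i).1 ∧
    (Q θ Lst (bits x) (marks x) i → Agree Lst (bits x) i (x i).2 a.2)}, fun i => ⟨x i, rfl, ?_⟩, ?_⟩
  · exact fun _ => ⟨fun _ => Iff.rfl, fun _ _ => Iff.rfl⟩
  · ext y
    rw [Set.mem_ofPred_eq, label_eq_iff]
    simp [Set.mem_pi]

theorem line_aux (b : Fin d → Bool) (l : Fin d → Mark d K) (j : Fin d)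
    (h : Q θ Lst b l j) : ∃ f : Option (Option (Fin K)) → (Fin d → Letter d K),
      (∀ t, ∀ i, i ≠ j → f t i = (b i, l i)) ∧ Function.Injective fun t => label θ Lst (f t) := by
  classical
  refine ⟨fun t => match t with
    | none => fun i => (flip j b i, l i)
    | some none => fun i => (b i, Function.update l j none i)
    | some (some s) => fun i => (b i, Function.update l j (some (b, s)) i), ?_, ?_⟩
  · rintro (_ | _ | s) i hi
    · simp [flip, Function.update_of_ne hi]
    · simp [Function.update_of_ne hi]
    · simp [Function.update_of_ne hi]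
  · have hflip : ∀ l' : Fin d → Mark d K,
        label θ Lst (fun i => (flip j b i, l i)) ≠ label θ Lst (fun i => (b i, l' i)) := by
      intro l' h0
      have := congrArg Prod.fst h0
      exact flip_ne j b this
    have hown : ∀ (v : Mark d K) (s : Fin K),
        (j, s) ∈ (label θ Lst (fun i => (b i, Function.update l j v i))).2.1 ↔
          v = some (b, s) := by
      intro v s
      have hQ := Q_update (Lst := Lst) b l j v h
      change (j, s) ∈ seenOwn θ Lst b (Function.update l j v) ↔ _
      rw [mem_seenOwn]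
      simp [hQ]
    rintro (_ | _ | s) (_ | _ | s') hst
    · rfl
    · exact absurd hst (hflip _)
    · exact absurd hst (hflip _)
    · exact absurd hst.symm (hflip _)
    · rfl
    · exfalso
      have h1 := (hown (some (b, s')) s').mpr rfl
      simp only at hst
      rw [← hst, hown] at h1
      simp at h1
    · exact absurd hst.symm (hflip _)
    · exfalso
      have h1 := (hown (some (b, s)) s).mpr rfl
      simp only at hst
      rw [hst, hown] at h1
      simp at h1
    · have h1 := (hown (some (b, s)) s).mpr rfl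
      simp only at hst
      rw [hst, hown] at h1
      simp only [Option.some.injEq, Prod.mk.injEq, true_and] at h1
      rw [h1]

theorem parts_piercing : IsPiercing (K + 2) (parts θ Lst K) := by
  classical
  refine ⟨Setoid.isPartition_classes _, ?_, ?_⟩
  · rintro _ ⟨x, rfl⟩
    exact isBox_fibre x
  · intro j c
    obtain ⟨f, hf1, hf2⟩ : ∃ f : Option (Option (Fin K)) → (Fin d → Letter d K),
        (∀ t, ∀ i, i ≠ j → f t i = c i) ∧ Function.Injective fun t => label θ Lst (f t) := by
      rcases Q_or_Q (θ := θ) (Lst := Lst) (bits c) (marks c) j with h | h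
      · obtain ⟨f, h1, h2⟩ := line_aux _ _ _ h
        exact ⟨f, fun t i hi => h1 t i hi, h2⟩
      · obtain ⟨f, h1, h2⟩ := line_aux _ _ _ h
        refine ⟨f, fun t i hi => (h1 t i hi).trans ?_, h2⟩
        simp [flip, Function.update_of_ne hi, bits, marks]
    have hinj : Function.Injective fun t => {y | label θ Lst y = label θ Lst (f t)} := by
      intro t t' htt
      apply hf2
      have : f t ∈ {y | label θ Lst y = label θ Lst (f t')} := by
        simp only at htt
        rw [← htt]
        rfl
      exact this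
    have hsub : (fun t => {y | label θ Lst y = label θ Lst (f t)}) '' Set.univ ⊆
        {B ∈ parts θ Lst K | (B ∩ line j c).Nonempty} := by
      rintro _ ⟨t, -, rfl⟩
      exact ⟨⟨f t, rfl⟩, f t, rfl, fun i hi => hf1 t i hi⟩
    calc K + 2 = (Set.univ : Set (Option (Option (Fin K)))).ncard := by
          simp [Set.ncard_univ]
      _ = _ := (Set.ncard_image_of_injective _ hinj).symm
      _ ≤ _ := Set.ncard_le_ncard hsub (Set.toFinite _)

end Label

end Pool.Agent.H2.Box
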