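import Pool.Agent.H2.Box.Defs

/-!
# The decision trees attached to the vertices of the discrete cube
-/

namespace Pool.Agent.H2.Box

/-- A mark: nothing, or a vertex of `{0,1}^d` with a type in `Fin K`. -/
abbrev Mark (d K : ℕ) := Option ((Fin d → Bool) × Fin K)

/-- A letter of the alphabet: a bit and a mark. -/
abbrev Letter (d K : ℕ) := Bool × Mark d K

/-- Change the coordinate `j` of a vertex. -/
def flip {d : ℕ} (j : Fin d) (b : Fin d → Bool) : Fin d → Bool := Function.update b j (!b j)

theorem flip_flip {d : ℕ} (j : Fin d) (b : Fin d → Bool) : flip j (flip j b) = b := by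
  funext i
  by_cases h : i = j
  · subst h; simp [flip]
  · simp [flip, Function.update_of_ne h]

theorem flip_injective {d : ℕ} (b : Fin d → Bool) : Function.Injective fun j => flip j b := by
  intro i j hij
  by_contra h
  have := congrFun hij i
  simp [flip, Function.update_of_ne h] at this

theorem flip_ne {d : ℕ} (j : Fin d) (b : Fin d → Bool) : flip j b ≠ b := by
  intro h
  have := congrFun h j
  simp [flip] at this

section Tree

variable {d K : ℕ} (θ : ℕ) (Lst : (Fin d → Bool) → Finset (Fin d))

/-- The coordinate `i` carries a mark of the vertex `b`. -/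
def own (b : Fin d → Bool) (l : Fin d → Mark d K) (i : Fin d) : Prop := ∃ s, l i = some (b, s)

open Classical in
/-- The own marks strictly before `i`. -/
noncomputable def before (b : Fin d → Bool) (l : Fin d → Mark d K) (i : Fin d) :
    Finset (Fin d) := Finset.univ.filter fun i' => i' < i ∧ own b l i'

/-- The tree of `b` reads the coordinate `i`: fewer than `θ` own marks come before. -/
def read (b : Fin d → Bool) (l : Fin d → Mark d K) (i : Fin d) : Prop := (before b l i).card < θ

/-- The tree of `b` has heard a mark of its neighbour in direction `j`. -/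
def alarm (b : Fin d → Bool) (l : Fin d → Mark d K) (j : Fin d) : Prop :=
  ∃ i s, read θ b l i ∧ i ∈ Lst b ∧ l i = some (flip j b, s)

/-- The neighbour in direction `j` listens to none of the own marks. -/
def deaf (b : Fin d → Bool) (l : Fin d → Mark d K) (j : Fin d) : Prop :=
  ∀ i, read θ b l i → own b l i → i ∉ Lst (flip j b)

/-- The coordinates looked at by the tree of `b`. -/
def Q (b : Fin d → Bool) (l : Fin d → Mark d K) (j : Fin d) : Prop :=
  read θ b l j ∨ alarm θ Lst b l j ∨ deaf θ Lst b l j

variable {θ Lst}

theorem before_mono {b : Fin d → Bool} {l : Fin d → Mark d K} {i i' : Fin d} (h : i' ≤ i) :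
    before b l i' ⊆ before b l i := by
  intro x
  simp only [before, Finset.mem_filter, Finset.mem_univ, true_and]
  exact fun hx => ⟨hx.1.trans_le h, hx.2⟩

theorem read_of_le {b : Fin d → Bool} {l : Fin d → Mark d K} {i i' : Fin d} (h : i' ≤ i)
    (hi : read θ b l i) : read θ b l i' := (Finset.card_le_card (before_mono h)).trans_lt hi

open Classical in
/-- If the tree does not read `i`, at least `θ` own marks before `i` were read. -/
theorem card_of_not_read {b : Fin d → Bool} {l : Fin d → Mark d K} {i : Fin d}
    (hi : ¬ read θ b l i) :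
    θ ≤ ((before b l i).filter fun i' => read θ b l i').card := by
  by_contra hlt
  rw [not_le] at hlt
  have hi' : θ ≤ (before b l i).card := not_lt.mp hi
  have hne : ((before b l i).filter fun i' => ¬ read θ b l i').Nonempty := by
    by_contra hemp
    rw [Finset.not_nonempty_iff_eq_empty, Finset.filter_eq_empty_iff] at hemp
    have : ((before b l i).filter fun i' => read θ b l i') = before b l i :=
      Finset.filter_true_of_mem fun x hx => not_not.mp (hemp hx)
    rw [this] at hlt
    omega
  obtain ⟨m, hm, hmin⟩ := Finset.exists_min_image _ id hne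
  rw [Finset.mem_filter] at hm
  apply hm.2
  refine lt_of_le_of_lt (Finset.card_le_card ?_) hlt
  intro x hx
  have hx' := hx
  simp only [before, Finset.mem_filter, Finset.mem_univ, true_and] at hx'
  rw [Finset.mem_filter]
  have hxi : x ∈ before b l i := by
    have hm1 := hm.1
    simp only [before, Finset.mem_filter, Finset.mem_univ, true_and] at hm1 ⊢
    exact ⟨hx'.1.trans hm1.1, hx'.2⟩
  refine ⟨hxi, ?_⟩
  by_contra hxr
  have := hmin x (Finset.mem_filter.mpr ⟨hxi, hxr⟩)
  exact absurd hx'.1 (not_lt.mpr this)

/-- Two trees of adjacent vertices: at least one of them looks at the joint direction. -/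
theorem Q_or_Q (b : Fin d → Bool) (l : Fin d → Mark d K) (j : Fin d) :
    Q θ Lst b l j ∨ Q θ Lst (flip j b) l j := by
  -- one of the two reads no more than the other
  have key : ∀ b : Fin d → Bool, (∀ i, read θ b l i → read θ (flip j b) l i) →
      Q θ Lst b l j ∨ Q θ Lst (flip j b) l j := by
    intro b hsub
    by_contra hcon
    rw [not_or] at hcon
    obtain ⟨h1, h2⟩ := hcon
    have hdeaf : ¬ deaf θ Lst b l j := fun h => h1 (Or.inr (Or.inr h))
    unfold deaf at hdeaf
    push Not at hdeaf
    obtain ⟨i, hi1, ⟨s, hs⟩, hi3⟩ := hdeaf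
    exact h2 (Or.inr (Or.inl ⟨i, s, hsub i hi1, hi3, by rw [flip_flip]; exact hs⟩))
  by_cases hsub : ∀ i, read θ b l i → read θ (flip j b) l i
  · exact key b hsub
  · push Not at hsub
    obtain ⟨i₀, h1, h2⟩ := hsub
    have := key (flip j b) (fun i hi => by
      rw [flip_flip]
      have hlt : i < i₀ := by
        by_contra hle
        exact h2 (read_of_le (not_lt.mp hle) hi)
      exact read_of_le hlt.le h1)
    rw [flip_flip] at this
    exact this.symm

/-- Two mark vectors look the same at `i` for the tree of `b`. -/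
def Agree (Lst : (Fin d → Bool) → Finset (Fin d)) (b : Fin d → Bool) (i : Fin d)
    (a a' : Mark d K) : Prop :=
  (∀ s, a = some (b, s) ↔ a' = some (b, s)) ∧
    (i ∈ Lst b → ∀ j, (∃ s, a = some (flip j b, s)) ↔ ∃ s, a' = some (flip j b, s))

theorem read_iff_of_agree {b : Fin d → Bool} {l l' : Fin d → Mark d K}
    (h : ∀ i, read θ b l i → (own b l i ↔ own b l' i)) (i : Fin d) :
    read θ b l' i ↔ read θ b l i := by
  classical
  constructor
  · intro h'
    by_contra hi
    have h1 := card_of_not_read hi
    have h2 : ((before b l i).filter fun i' => read θ b l i') ⊆ before b l' i := by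
      intro x hx
      simp only [before, Finset.mem_filter, Finset.mem_univ, true_and] at hx ⊢
      exact ⟨hx.1.1, (h x hx.2).mp hx.1.2⟩
    have h3 := Finset.card_le_card h2
    unfold read at h'
    omega
  · intro hi
    refine lt_of_le_of_lt (Finset.card_le_card ?_) hi
    intro x hx
    simp only [before, Finset.mem_filter, Finset.mem_univ, true_and] at hx ⊢
    exact ⟨hx.1, (h x (read_of_le hx.1.le hi)).mpr hx.2⟩

theorem Q_iff_of_agree {b : Fin d → Bool} {l l' : Fin d → Mark d K}
    (h : ∀ i, read θ b l i → Agree Lst b i (l i) (l' i)) (j : Fin d) :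
    Q θ Lst b l' j ↔ Q θ Lst b l j := by
  have hr : ∀ i, read θ b l' i ↔ read θ b l i := read_iff_of_agree fun i hi => by
    unfold own
    exact exists_congr fun s => (h i hi).1 s
  have ha : alarm θ Lst b l' j ↔ alarm θ Lst b l j := by
    constructor
    · rintro ⟨i, s, h1, h2, h3⟩
      have hi := (hr i).mp h1
      obtain ⟨s', hs'⟩ := ((h i hi).2 h2 j).mpr ⟨s, h3⟩
      exact ⟨i, s', hi, h2, hs'⟩
    · rintro ⟨i, s, h1, h2, h3⟩
      obtain ⟨s', hs'⟩ := ((h i h1).2 h2 j).mp ⟨s, h3⟩
      exact ⟨i, s', (hr i).mpr h1, h2, hs'⟩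
  have hd : deaf θ Lst b l' j ↔ deaf θ Lst b l j := by
    refine forall_congr' fun i => ?_
    constructor
    · intro h1 h2 h3
      exact h1 ((hr i).mpr h2) (by
        obtain ⟨s, hs⟩ := h3
        exact ⟨s, ((h i h2).1 s).mp hs⟩)
    · intro h1 h2 h3
      have hi := (hr i).mp h2
      exact h1 hi (by
        obtain ⟨s, hs⟩ := h3
        exact ⟨s, ((h i hi).1 s).mpr hs⟩)
  unfold Q
  rw [hr, ha, hd]

/-- Whether the tree looks at `j` does not depend on the mark at `j`. -/
theorem Q_update (b : Fin d → Bool) (l : Fin d → Mark d K) (j : Fin d) (v : Mark d K)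
    (h : Q θ Lst b l j) : Q θ Lst b (Function.update l j v) j := by
  by_cases hj : read θ b l j
  · refine Or.inl (lt_of_le_of_lt (Finset.card_le_card ?_) hj)
    intro x hx
    simp only [before, Finset.mem_filter, Finset.mem_univ, true_and] at hx ⊢
    refine ⟨hx.1, ?_⟩
    obtain ⟨s, hs⟩ := hx.2
    rw [Function.update_of_ne hx.1.ne] at hs
    exact ⟨s, hs⟩
  · refine (Q_iff_of_agree (fun i hi => ?_) j).mpr h
    have hij : i ≠ j := by
      rintro rfl
      exact hj hi
    rw [Function.update_of_ne hij]
    exact ⟨fun _ => Iff.rfl, fun _ _ => Iff.rfl⟩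

end Tree

end Pool.Agent.H2.Box
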